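import Mathlib
import Pool.Agent.Helper42.Sel.Final

set_option autoImplicit false

namespace Pool.Agent.Results.MP_c3eb34_co.UnequalSizes

/-- Homogeneous selection for colour classes of arbitrary sizes. -/
theorem result : ∀ d : ℕ, 1 ≤ d → ∃ c : ℝ, 0 < c ∧
    ∀ C : Fin (d + 1) → Finset (Fin d → ℝ), (∀ i, (C i).Nonempty) →
      ∃ (p : Fin d → ℝ) (D : Fin (d + 1) → Finset (Fin d → ℝ)),
        (∀ i, D i ⊆ C i) ∧ (∀ i, c * ((C i).card : ℝ) ≤ ((D i).card : ℝ)) ∧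
        ∀ x : Fin (d + 1) → (Fin d → ℝ), (∀ i, x i ∈ D i) → p ∈ convexHull ℝ (Set.range x) :=
  fun d hd => Pool.Agent.Helper42.Sel.homogeneous d hd

end Pool.Agent.Results.MP_c3eb34_co.UnequalSizes
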